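import Pool.Agent.Q85.VL.Defs
import Pool.Agent.Q151.CC.Double

/-! Project VL, job VL-11: an oriented vorticity is weakly free of divergence. -/

set_option autoImplicit false

open MeasureTheory Set Metric Filter Topology
open scoped ContDiff
open H459R3.NS Pool.Agent.W268.NS Pool.Agent.Q67.VD Pool.Agent.Q85.CC Pool.Agent.Q85.CL
open Pool.Agent.Q151.CC Pool.Agent.Q85.VL

namespace Pool.Agent.Q223.VL

/-! ### a bounded derivative -/

lemma st_deriv_zero {s : ℝ} (h : s < 0 ∨ 1 < s) : deriv Real.smoothTransition s = 0 := by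
  rcases h with h | h
  · have : Real.smoothTransition =ᶠ[𝓝 s] fun _ => 0 := by
      filter_upwards [gt_mem_nhds h] with t ht
      exact Real.smoothTransition.zero_of_nonpos ht.le
    rw [this.deriv_eq, deriv_const]
  · have : Real.smoothTransition =ᶠ[𝓝 s] fun _ => 1 := by
      filter_upwards [lt_mem_nhds h] with t ht
      exact Real.smoothTransition.one_of_one_le ht.le
    rw [this.deriv_eq, deriv_const]

lemma st_smooth : ContDiff ℝ 1 Real.smoothTransition := Real.smoothTransition.contDiff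

lemma st_bound : ∃ K : ℝ, 0 ≤ K ∧ ∀ s, |deriv Real.smoothTransition s| ≤ K := by
  have hc : Continuous (deriv Real.smoothTransition) := st_smooth.continuous_deriv le_rfl
  obtain ⟨K, hK⟩ := isCompact_Icc.exists_bound_of_continuousOn (s := Icc (0 : ℝ) 1) hc.continuousOn
  have hK0 : 0 ≤ K := (norm_nonneg _).trans (hK 0 ⟨le_rfl, zero_le_one⟩)
  refine ⟨K, hK0, fun s => ?_⟩
  by_cases hs : s ∈ Icc (0 : ℝ) 1
  · exact hK s hs
  · have h1 : s < 0 ∨ 1 < s := by
      by_contra hcon
      push Not at hcon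
      exact hs ⟨hcon.1, hcon.2⟩
    rw [st_deriv_zero h1, abs_zero]
    exact hK0

/-! ### the square of the length of a field -/

/-- the square of the length -/
noncomputable def oo (w : V → V) (y : V) : ℝ := w y ⬝ᵥ w y

/-- the bound of the derivative -/
noncomputable def CC (w : V → V) (y : V) : ℝ :=
  2 * (‖fderiv ℝ (fun z => w z 0) y‖ + ‖fderiv ℝ (fun z => w z 1) y‖ + ‖fderiv ℝ (fun z => w z 2) y‖)

variable {w : V → V}

lemma oo_eq (w : V → V) : oo w = fun y => w y 0 * w y 0 + w y 1 * w y 1 + w y 2 * w y 2 := by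
  funext y
  simp only [oo, dot3]

lemma oo_smooth (hw : ∀ i, ContDiff ℝ 1 fun y => w y i) : ContDiff ℝ 1 (oo w) := by
  rw [oo_eq]
  exact (((hw 0).mul (hw 0)).add ((hw 1).mul (hw 1))).add ((hw 2).mul (hw 2))

lemma oo_nonneg (y : V) : 0 ≤ oo w y := dot_nn _

lemma oo_pos {y : V} (h : w y ≠ 0) : 0 < oo w y := by
  rcases (oo_nonneg (w := w) y).lt_or_eq with h1 | h1
  · exact h1
  · exfalso
    apply h
    have h2 := norm_le_len (w y)
    have h3 : (w y) ⬝ᵥ (w y) = 0 := h1.symm
    rw [h3, Real.sqrt_zero] at h2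
    exact norm_le_zero_iff.1 h2

lemma oo_fderiv (hw : ∀ i, ContDiff ℝ 1 fun y => w y i) (y n : V) : fderiv ℝ (oo w) y n =
    2 * (w y 0 * fderiv ℝ (fun z => w z 0) y n + w y 1 * fderiv ℝ (fun z => w z 1) y n +
      w y 2 * fderiv ℝ (fun z => w z 2) y n) := by
  have a := fun i => ((hw i).differentiable one_ne_zero y).hasFDerivAt
  have h := (((a 0).fun_mul (a 0)).fun_add ((a 1).fun_mul (a 1))).fun_add ((a 2).fun_mul (a 2))
  rw [oo_eq, h.fderiv]
  simp only [add_apply, smul_apply, smul_eq_mul]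
  ring

lemma CC_cont (hw : ∀ i, ContDiff ℝ 1 fun y => w y i) : Continuous (CC w) := by
  have a := fun i => ((hw i).continuous_fderiv one_ne_zero).norm
  exact continuous_const.mul (((a 0).add (a 1)).add (a 2))

lemma CC_nonneg (y : V) : 0 ≤ CC w y := by unfold CC; positivity

lemma comp_le (a : V) (i : Fin 3) : |a i| ≤ √(a ⬝ᵥ a) := Real.abs_le_sqrt (coord_sq a i)

lemma oo_bound (hw : ∀ i, ContDiff ℝ 1 fun y => w y i) (y : V) :
    |fderiv ℝ (oo w) y (w y)| ≤ CC w y * oo w y := by
  rw [oo_fderiv hw]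
  have hs : √(oo w y) * √(oo w y) = oo w y := Real.mul_self_sqrt (oo_nonneg y)
  have h1 : ∀ i, |w y i * fderiv ℝ (fun z => w z i) y (w y)| ≤
      ‖fderiv ℝ (fun z => w z i) y‖ * oo w y := by
    intro i
    rw [abs_mul]
    calc |w y i| * |fderiv ℝ (fun z => w z i) y (w y)|
        ≤ √(oo w y) * (‖fderiv ℝ (fun z => w z i) y‖ * √(oo w y)) := by
          refine mul_le_mul (comp_le _ _) ?_ (abs_nonneg _) (Real.sqrt_nonneg _)
          have h5 : |fderiv ℝ (fun z => w z i) y (w y)| ≤ ‖fderiv ℝ (fun z => w z i) y‖ * ‖w y‖ := by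
            have h6 := (fderiv ℝ (fun z => w z i) y).le_opNorm (w y)
            rwa [Real.norm_eq_abs] at h6
          exact h5.trans (mul_le_mul_of_nonneg_left (norm_le_len _) (norm_nonneg _))
      _ = ‖fderiv ℝ (fun z => w z i) y‖ * (√(oo w y) * √(oo w y)) := by ring
      _ = _ := by rw [hs]
  rw [abs_mul, abs_two]
  unfold CC
  calc 2 * |w y 0 * fderiv ℝ (fun z => w z 0) y (w y) + w y 1 * fderiv ℝ (fun z => w z 1) y (w y) +
      w y 2 * fderiv ℝ (fun z => w z 2) y (w y)|
      ≤ 2 * (|w y 0 * fderiv ℝ (fun z => w z 0) y (w y)| +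
        |w y 1 * fderiv ℝ (fun z => w z 1) y (w y)| +
        |w y 2 * fderiv ℝ (fun z => w z 2) y (w y)|) := by
        gcongr
        exact abs_add_three _ _ _
    _ ≤ 2 * (‖fderiv ℝ (fun z => w z 0) y‖ * oo w y + ‖fderiv ℝ (fun z => w z 1) y‖ * oo w y +
        ‖fderiv ℝ (fun z => w z 2) y‖ * oo w y) := by
        gcongr
        · exact h1 0
        · exact h1 1
        · exact h1 2
    _ = _ := by ring

/-! ### orientations -/

variable {θ : V → ℝ} {a : V} {R : ℝ}

lemma th_abs (hθ : Orient θ a R w) (y : V) : |θ y| = 1 := by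
  rcases hθ.1 y with h | h <;> simp [h]

lemma th_loc (hθ : Orient θ a R w) (hwc : Continuous w) {y : V} (hy : ‖y - a‖ ≤ R)
    (h0 : w y ≠ 0) : ∀ᶠ z in 𝓝 y, ‖z - a‖ ≤ R → θ z = θ y := by
  have h1 : ContinuousWithinAt θ {y | ‖y - a‖ ≤ R ∧ w y ≠ 0} y := hθ.2 y ⟨hy, h0⟩
  have h2 : ∀ᶠ z in 𝓝[{y | ‖y - a‖ ≤ R ∧ w y ≠ 0}] y, |θ z - θ y| < 1 := by
    have := Metric.tendsto_nhds.1 h1 1 one_pos
    filter_upwards [this] with z hz
    rwa [Real.dist_eq] at hz
  rw [eventually_nhdsWithin_iff] at h2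
  have h3 : ∀ᶠ z in 𝓝 y, w z ≠ 0 := hwc.continuousAt.eventually_ne h0
  filter_upwards [h2, h3] with z h4 h5 h6
  have h7 := h4 ⟨h6, h5⟩
  rcases hθ.1 z with h8 | h8 <;> rcases hθ.1 y with h9 | h9 <;> rw [h8, h9] at h7 ⊢
  · norm_num at h7
  · norm_num at h7

/-- the oriented field -/
noncomputable def zf (θ : V → ℝ) (w : V → V) (y : V) : V := θ y • w y

lemma zf_contOn (hθ : Orient θ a R w) (hwc : Continuous w) :
    ContinuousOn (zf θ w) (closedBall a R) := by
  intro y hy
  have hy' : ‖y - a‖ ≤ R := by rwa [mem_closedBall, dist_eq_norm] at hy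
  by_cases h0 : w y = 0
  · have h2 : zf θ w y = 0 := by
      unfold zf
      rw [h0, smul_zero]
    rw [ContinuousWithinAt, h2, tendsto_zero_iff_norm_tendsto_zero]
    have h3 : Tendsto (fun z => ‖w z‖) (𝓝[closedBall a R] y) (𝓝 0) := by
      have := (hwc.norm.tendsto y).mono_left (nhdsWithin_le_nhds (s := closedBall a R))
      rwa [h0, norm_zero] at this
    refine squeeze_zero (fun z => norm_nonneg _) (fun z => ?_) h3
    unfold zf
    rw [norm_smul, Real.norm_eq_abs, th_abs hθ, one_mul]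
  · have h1 : ContinuousWithinAt (fun z => θ y • w z) (closedBall a R) y :=
      (hwc.const_smul (θ y)).continuousAt.continuousWithinAt
    refine h1.congr_of_eventuallyEq ?_ rfl
    have h2 := th_loc hθ hwc hy' h0
    rw [Filter.EventuallyEq, eventually_nhdsWithin_iff]
    filter_upwards [h2] with z h3 h4
    unfold zf
    rw [h3 (by rwa [mem_closedBall, dist_eq_norm] at h4)]

/-- the extended field -/
noncomputable def WW (θ : V → ℝ) (a : V) (R : ℝ) (w : V → V) (y : V) : V := zf θ w (clp a R y)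

lemma WW_cont (hθ : Orient θ a R w) (hwc : Continuous w) (hR : 0 ≤ R) :
    Continuous (WW θ a R w) :=
  (zf_contOn hθ hwc).comp_continuous (clp_cont a R) (clp_mem hR a)

lemma WW_eq (hR : 0 ≤ R) {y : V} (hy : y ∈ closedBall a R) : WW θ a R w y = θ y • w y := by
  unfold WW zf
  rw [clp_eq hR hy]

/-- the cut-off function -/
noncomputable def BB (c : ℝ) (w : V → V) (y : V) : ℝ := Real.smoothTransition (c * oo w y - 1)

lemma BB_smooth (hw : ∀ i, ContDiff ℝ 1 fun y => w y i) (c : ℝ) : ContDiff ℝ 1 (BB c w) :=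
  st_smooth.comp ((contDiff_const.mul (oo_smooth hw)).sub contDiff_const)

lemma BB_fderiv (hw : ∀ i, ContDiff ℝ 1 fun y => w y i) (c : ℝ) (y n : V) :
    fderiv ℝ (BB c w) y n =
      deriv Real.smoothTransition (c * oo w y - 1) * (c * fderiv ℝ (oo w) y n) := by
  have h1 : HasFDerivAt (fun y => c * oo w y - 1) (c • fderiv ℝ (oo w) y) y := by
    have := (((oo_smooth hw).differentiable one_ne_zero y).hasFDerivAt).const_mul c
    exact this.sub_const 1
  have h2 := ((st_smooth.differentiable one_ne_zero (c * oo w y - 1)).hasDerivAt).comp_hasFDerivAt y h1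
  have h3 : fderiv ℝ (BB c w) y = _ := h2.fderiv
  rw [h3]
  simp only [smul_apply, smul_eq_mul]

/-- the product -/
noncomputable def GG (θ : V → ℝ) (F : V → ℝ) (c : ℝ) (w : V → V) (y : V) : ℝ :=
  θ y * (F y * BB c w y)

lemma F_zero {F : V → ℝ} (hts : tsupport F ⊆ closedBall a R) {y : V} (hy : y ∉ closedBall a R) :
    F y = 0 := by
  by_contra h
  exact hy (hts (subset_tsupport F h))

lemma GG_loc (hθ : Orient θ a R w) (hwc : Continuous w) {F : V → ℝ}
    (hts : tsupport F ⊆ closedBall a R) (c : ℝ) {y : V} (hy : ‖y - a‖ ≤ R) (h0 : w y ≠ 0) :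
    GG θ F c w =ᶠ[𝓝 y] fun z => θ y * (F z * BB c w z) := by
  filter_upwards [th_loc hθ hwc hy h0] with z hz
  unfold GG
  by_cases h1 : ‖z - a‖ ≤ R
  · rw [hz h1]
  · rw [F_zero hts (by rwa [mem_closedBall, dist_eq_norm]), zero_mul, mul_zero, mul_zero]

lemma GG_smooth (hθ : Orient θ a R w) (hw : ∀ i, ContDiff ℝ 1 fun y => w y i) {F : V → ℝ}
    (hF : ContDiff ℝ 1 F) (hts : tsupport F ⊆ closedBall a R) (c : ℝ) :
    ContDiff ℝ 1 (GG θ F c w) := by
  have hwc : Continuous w := continuous_pi fun i => (hw i).continuous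
  rw [contDiff_iff_contDiffAt]
  intro y
  by_cases hy : y ∈ closedBall a R
  · by_cases h0 : w y = 0
    · have h1 : GG θ F c w =ᶠ[𝓝 y] fun _ => 0 := by
        have h2 : ∀ᶠ z in 𝓝 y, c * oo w z - 1 < 0 := by
          have h3 : ContinuousAt (fun z => c * oo w z - 1) y :=
            ((continuous_const.mul (oo_smooth hw).continuous).sub continuous_const).continuousAt
          have h4 : c * oo w y - 1 < 0 := by
            have : oo w y = 0 := by simp [oo, h0]
            rw [this]; norm_num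
          exact h3.eventually_lt continuousAt_const h4
        filter_upwards [h2] with z hz
        unfold GG BB
        rw [Real.smoothTransition.zero_of_nonpos hz.le, mul_zero, mul_zero]
      exact contDiffAt_const.congr_of_eventuallyEq h1
    · have h1 := GG_loc hθ hwc hts c (by rwa [mem_closedBall, dist_eq_norm] at hy) h0
      exact ((contDiff_const.mul (hF.mul (BB_smooth hw c))).contDiffAt).congr_of_eventuallyEq h1
  · have h1 : GG θ F c w =ᶠ[𝓝 y] fun _ => 0 := by
      have : ∀ᶠ z in 𝓝 y, z ∈ (closedBall a R)ᶜ := isClosed_closedBall.isOpen_compl.mem_nhds hy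
      filter_upwards [this] with z hz
      unfold GG
      rw [F_zero hts hz, zero_mul, mul_zero]
    exact contDiffAt_const.congr_of_eventuallyEq h1

lemma GG_tsupport {F : V → ℝ} (hts : tsupport F ⊆ closedBall a R) (c : ℝ) :
    tsupport (GG θ F c w) ⊆ closedBall a R := by
  refine subset_trans ?_ hts
  refine closure_mono ?_
  intro y hy hF
  apply hy
  show θ y * (F y * BB c w y) = 0
  rw [show F y = 0 from hF, zero_mul, mul_zero]

lemma GG_fderiv (hθ : Orient θ a R w) (hw : ∀ i, ContDiff ℝ 1 fun y => w y i) {F : V → ℝ}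
    (hF : ContDiff ℝ 1 F) (hts : tsupport F ⊆ closedBall a R) (c : ℝ) {y : V}
    (hy : y ∈ closedBall a R) :
    fderiv ℝ (GG θ F c w) y (w y) = θ y * (BB c w y * fderiv ℝ F y (w y) +
      F y * (deriv Real.smoothTransition (c * oo w y - 1) * (c * fderiv ℝ (oo w) y (w y)))) := by
  have hwc : Continuous w := continuous_pi fun i => (hw i).continuous
  by_cases h0 : w y = 0
  · simp [h0]
  · have h1 := GG_loc hθ hwc hts c (by rwa [mem_closedBall, dist_eq_norm] at hy) h0
    rw [h1.fderiv_eq]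
    have a1 := (hF.differentiable one_ne_zero y).hasFDerivAt
    have a2 := ((BB_smooth hw c).differentiable one_ne_zero y).hasFDerivAt
    have a3 := (a1.fun_mul a2).const_mul (θ y)
    rw [a3.fderiv, ← BB_fderiv hw c y (w y)]
    simp only [add_apply, smul_apply, smul_eq_mul]
    ring

lemma GG_bound (hθ : Orient θ a R w) (hw : ∀ i, ContDiff ℝ 1 fun y => w y i) {F : V → ℝ}
    (hF : ContDiff ℝ 1 F) (hts : tsupport F ⊆ closedBall a R) {c K : ℝ} (hc : 0 ≤ c) (hK : 0 ≤ K)
    (hKs : ∀ s, |deriv Real.smoothTransition s| ≤ K) {y : V} (hy : y ∈ closedBall a R) :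
    |fderiv ℝ (GG θ F c w) y (w y)| ≤ |fderiv ℝ F y (w y)| + |F y| * (K * (2 * CC w y)) := by
  rw [GG_fderiv hθ hw hF hts c hy, abs_mul, th_abs hθ, one_mul]
  refine (abs_add_le _ _).trans (add_le_add ?_ ?_)
  · rw [abs_mul]
    refine mul_le_of_le_one_left (abs_nonneg _) ?_
    unfold BB
    rw [abs_of_nonneg (Real.smoothTransition.nonneg _)]
    exact Real.smoothTransition.le_one _
  · rw [abs_mul]
    refine mul_le_mul_of_nonneg_left ?_ (abs_nonneg _)
    by_cases h1 : c * oo w y ≤ 2
    · rw [abs_mul]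
      refine mul_le_mul (hKs _) ?_ (abs_nonneg _) hK
      rw [abs_mul, abs_of_nonneg hc]
      calc c * |fderiv ℝ (oo w) y (w y)| ≤ c * (CC w y * oo w y) := by
            gcongr
            exact oo_bound hw y
        _ = (c * oo w y) * CC w y := by ring
        _ ≤ 2 * CC w y := by
            gcongr
            exact CC_nonneg y
    · rw [st_deriv_zero (Or.inr (by linarith)), zero_mul, abs_zero]
      have := CC_nonneg (w := w) y
      positivity

theorem wd_of_orient (hθ : Orient θ a R w) (hdf : DF w) (hR : 0 ≤ R) : WD R a (WW θ a R w) := by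
  have hw := hdf.smooth
  have hwc := hdf.cont
  refine ⟨WW_cont hθ hwc hR, fun F hF hts => ?_⟩
  have hwd := hdf.wd R a
  obtain ⟨K, hK, hKs⟩ := st_bound
  have hms : MeasurableSet (closedBall a R) := isClosed_closedBall.measurableSet
  have hI : ∀ n : ℕ, ∫ y in closedBall a R, fderiv ℝ (GG θ F n w) y (w y) = 0 := fun n =>
    hwd.div _ (GG_smooth hθ hw hF hts n) (GG_tsupport hts n)
  have cF : Continuous fun y => fderiv ℝ F y (w y) :=
    (hF.continuous_fderiv one_ne_zero).clm_apply hwc
  have hL : Tendsto (fun n : ℕ => ∫ y in closedBall a R, fderiv ℝ (GG θ F n w) y (w y)) atTop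
      (𝓝 (∫ y in closedBall a R, fderiv ℝ F y (WW θ a R w y))) := by
    refine tendsto_integral_of_dominated_convergence
      (fun y => |fderiv ℝ F y (w y)| + |F y| * (K * (2 * CC w y)))
      (fun n => ?_) ?_ (fun n => ?_) ?_
    · exact (((GG_smooth hθ hw hF hts n).continuous_fderiv one_ne_zero).clm_apply
        hwc).aestronglyMeasurable
    · exact int_cont (cF.abs.add (hF.continuous.abs.mul (continuous_const.mul
        (continuous_const.mul (CC_cont hw))))) a R
    · refine (ae_restrict_iff' hms).2 (Eventually.of_forall fun y hy => ?_)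
      rw [Real.norm_eq_abs]
      exact GG_bound hθ hw hF hts (Nat.cast_nonneg n) hK hKs hy
    · refine (ae_restrict_iff' hms).2 (Eventually.of_forall fun y hy => ?_)
      rw [WW_eq hR hy]
      by_cases h0 : w y = 0
      · simp [h0]
      · refine tendsto_const_nhds.congr' ?_
        have h1 : ∀ᶠ n : ℕ in atTop, 2 / oo w y < n := by
          obtain ⟨N, hN⟩ := exists_nat_gt (2 / oo w y)
          filter_upwards [eventually_ge_atTop N] with n hn
          exact hN.trans_le (by exact_mod_cast hn)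
        filter_upwards [h1] with n hn
        have h2 : 2 < n * oo w y := by
          rwa [div_lt_iff₀ (oo_pos h0)] at hn
        rw [GG_fderiv hθ hw hF hts n hy]
        unfold BB
        rw [st_deriv_zero (Or.inr (by linarith)),
          Real.smoothTransition.one_of_one_le (by linarith), map_smul, smul_eq_mul]
        ring
  simp_rw [hI] at hL
  exact tendsto_nhds_unique tendsto_const_nhds hL ▸ rfl

theorem vl11 : StmWd := by
  intro v θ a R hv hR hθ
  refine ⟨WW θ a R (vort v), wd_of_orient hθ (vort_df hv) hR.le, fun y hy => ?_⟩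
  exact WW_eq hR.le (by rwa [mem_closedBall, dist_eq_norm])

end Pool.Agent.Q223.VL
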